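import Mathlib

set_option autoImplicit false

/-!
The sequences generated by `k ↦ 2 k + 2` and `k ↦ 3 k + 3`: explicit repetitions.
-/

namespace Pool.Agent.Results.MP_6850eb_nt.NotInjective

/-- The sequence `s_a`: `s_a(1) = a`, `s_a(2k) = 2 s_a(k) + 2`, `s_a(2k+1) = 3 s_a(k) + 3` for
`k ≥ 1` (the value at `0` is irrelevant). -/
def s (a : ℤ) (n : ℕ) : ℤ :=
  if n ≤ 1 then a else if n % 2 = 0 then 2 * s a (n / 2) + 2 else 3 * s a (n / 2) + 3

theorem s_one (a : ℤ) : s a 1 = a := by
  rw [s]; simp

theorem s_even (a : ℤ) {k : ℕ} (hk : 1 ≤ k) : s a (2 * k) = 2 * s a k + 2 := by
  rw [s, if_neg (by omega), if_pos (by omega)]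
  congr 3
  omega

theorem s_odd (a : ℤ) {k : ℕ} (hk : 1 ≤ k) : s a (2 * k + 1) = 3 * s a k + 3 := by
  rw [s, if_neg (by omega), if_neg (by omega)]
  congr 3
  omega

/-- the number with the binary digits `1` and then `l` (`true` stands for the digit `1`) -/
def num (l : List Bool) : ℕ := l.foldl (fun k c => if c then 2 * k + 1 else 2 * k) 1

/-- the value obtained from `a` when the digits `l` are read -/
def ev (a : ℤ) (l : List Bool) : ℤ := l.foldl (fun x c => if c then 3 * x + 3 else 2 * x + 2) a

theorem s_fold (a : ℤ) (l : List Bool) : ∀ k : ℕ, 1 ≤ k →
    1 ≤ l.foldl (fun k c => if c then 2 * k + 1 else 2 * k) k ∧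
    s a (l.foldl (fun k c => if c then 2 * k + 1 else 2 * k) k) =
      l.foldl (fun x c => if c then 3 * x + 3 else 2 * x + 2) (s a k) := by
  induction l with
  | nil => intro k hk; exact ⟨hk, rfl⟩
  | cons c l ih =>
    intro k hk
    rw [List.foldl_cons, List.foldl_cons]
    cases c with
    | true =>
      simp only [if_true]
      have h := ih (2 * k + 1) (by omega)
      rw [s_odd a hk] at h
      exact h
    | false =>
      simp only [Bool.false_eq_true, if_false]
      have h := ih (2 * k) (by omega)
      rw [s_even a hk] at h
      exact h

theorem s_num (a : ℤ) (l : List Bool) : 1 ≤ num l ∧ s a (num l) = ev a l := by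
  have h := s_fold a l 1 le_rfl
  rw [s_one] at h
  exact h

theorem wit {a : ℤ} (l l' : List Bool) (h : num l ≠ num l') (he : ev a l = ev a l') :
    ∃ m n : ℕ, 1 ≤ m ∧ 1 ≤ n ∧ m ≠ n ∧ s a m = s a n :=
  ⟨num l, num l', (s_num a l).1, (s_num a l').1, h, by rw [(s_num a l).2, (s_num a l').2, he]⟩

/-- **Result.** The functions `s_a` satisfy the recursion of the problem, and for every integer `a`
with `-11 ≤ a ≤ 7`, and for `a = 15`, there are different positive integers `m`, `n` with
`s_a(m) = s_a(n)`. So `S_a` contains a repeated element, in particular, for `a = -11, ..., -4` and
for `a = 3, ..., 7`. -/
theorem result :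
    (∀ a : ℤ, s a 1 = a ∧ ∀ k : ℕ, 1 ≤ k →
      s a (2 * k) = 2 * s a k + 2 ∧ s a (2 * k + 1) = 3 * s a k + 3) ∧
    ∀ a : ℤ, (-11 ≤ a ∧ a ≤ 7) ∨ a = 15 →
      ∃ m n : ℕ, 1 ≤ m ∧ 1 ≤ n ∧ m ≠ n ∧ s a m = s a n := by
  refine ⟨fun a => ⟨s_one a, fun k hk => ⟨s_even a hk, s_odd a hk⟩⟩, ?_⟩
  intro a ha
  have hcases : a = -11 ∨ a = -10 ∨ a = -9 ∨ a = -8 ∨ a = -7 ∨ a = -6 ∨ a = -5 ∨ a = -4 ∨ a = -3 ∨ a = -2 ∨ a = -1 ∨ a = 0 ∨ a = 1 ∨ a = 2 ∨ a = 3 ∨ a = 4 ∨ a = 5 ∨ a = 6 ∨ a = 7 ∨ a = 15 := by
    omega
  rcases hcases with rfl | rfl | rfl | rfl | rfl | rfl | rfl | rfl | rfl | rfl | rfl | rfl | rfl | rfl | rfl | rfl | rfl | rfl | rfl | rfl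
  · exact wit [true, true, true, true, false, true, false, false, true, true]
      [false, false, false, false, false, true, true, false, false, false, false, false, false] (by decide) (by decide)
  · exact wit [true, true, false, true, true, true, true]
      [false, false, false, true, false, false, false, false, false, false] (by decide) (by decide)
  · exact wit [true, false, false, true, true, true, true]
      [false, false, false, false, false, false, false, false, false, false] (by decide) (by decide)
  · exact wit [true, true, true, true, false, true, true]
      [false, true, false, false, false, false, false, false, false, false] (by decide) (by decide)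
  · exact wit [true, true, false, false, true, true, true, true, true, true]
      [false, true, false, false, true, false, false, false, true, false, false, false, false] (by decide) (by decide)
  · exact wit [false, true, true, false, true, true, true, true]
      [false, false, false, false, true, false, false, false, false, false, false] (by decide) (by decide)
  · exact wit [false, false, false, true, true, true, true]
      [true, true, false, false, false, false, false, false] (by decide) (by decide)
  · exact wit [true, false, false, true, true]
      [false, false, false, false, false, false, false] (by decide) (by decide)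
  · exact wit [true]
      [false, false] (by decide) (by decide)
  · exact wit []
      [false] (by decide) (by decide)
  · exact wit [false]
      [true] (by decide) (by decide)
  · exact wit [false, true, true]
      [false, false, false, false] (by decide) (by decide)
  · exact wit [true, true, true]
      [false, true, false, false] (by decide) (by decide)
  · exact wit [true, true]
      [false, false, false] (by decide) (by decide)
  · exact wit [true, true, true, true, true, true, true, false, true, true]
      [false, true, false, true, false, false, false, false, false, false, false, false, false, false] (by decide) (by decide)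
  · exact wit [false, false, false, false, true, true, true, true, true, true, true, true]
      [true, false, false, false, false, false, false, false, true, false, true, false, false, false, false] (by decide) (by decide)
  · exact wit [false, false, true, false, false, true, true, true, true, true, true]
      [true, true, false, false, false, false, false, false, false, false, false, false, false, false] (by decide) (by decide)
  · exact wit [false, false, false, true, false, true, true, true, false, true, true, true, true, false, true, true]
      [true, true, false, false, true, false, true, false, true, false, false, false, false, false, false, false, false, false, false] (by decide) (by decide)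
  · exact wit [false, false, false, false, true, true, false, true, false, false, true, false, false, true, true, true, true, true, true]
      [true, true, true, false, false, true, false, false, false, false, false, true, false, false, false, false, false, false, false, false, false, false] (by decide) (by decide)
  · exact wit [false, true, true, false, false, true, true, true, true, true, true, false, true, true, false, true, true, true, true]
      [false, false, false, false, false, false, false, false, false, false, true, false, false, true, false, false, false, false, false, false, false, false, false, false, false, false] (by decide) (by decide)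

end Pool.Agent.Results.MP_6850eb_nt.NotInjective
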